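import Pool.Agent.R387.EM.Towers

/-!
# Étale motivic cohomology in the weight `dim`, degrees `0 ≤ p ≤ 2 dim`: blow-ups, dimension by dimension
-/

set_option autoImplicit false

namespace Pool.Agent.R324.BT

open Pool.Agent.R387.EM Pool.Agent.R387.EM.Towers

variable {S : VarClass}

/-- Q1 for `X`: `H^p(X_et, ℤ(d))` is finitely generated for `0 ≤ p ≤ 2 d`, `d = dim X`. -/
def Q1 (D : Data S) (X : S.Obj) : Prop :=
  ∀ p : ℤ, 0 ≤ p → p ≤ 2 * (X.dim : ℤ) → (D.H X X.dim p).FG

/-- For all weights `dim W < n < N` and all degrees `2 n - 2 N ≤ p ≤ 2 n` the group `H^p(W_et, ℤ(n))` is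
finitely generated, and it is zero if moreover `p < 0`. -/
def Window (D : Data S) (W : S.Obj) (N : ℕ) : Prop :=
  ∀ n : ℕ, W.dim < n → n < N → ∀ p : ℤ, 2 * (n : ℤ) - 2 * N ≤ p → p ≤ 2 * (n : ℤ) →
    (D.H W n p).FG ∧ (p < 0 → (D.H W n p).IsZero)

/-- For all weights `n > dim W` and all `p ≤ 2 n` the group `H^p(W_et, ℤ(n))` is finitely generated, and
it is zero for `p < 0`. -/
def High (D : Data S) (W : S.Obj) : Prop :=
  ∀ n : ℕ, W.dim < n → ∀ p : ℤ, p ≤ 2 * (n : ℤ) →
    (D.H W n p).FG ∧ (p < 0 → (D.H W n p).IsZero)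

/-- Q1 for a blow-up `B` of `X` along `W` is equivalent to Q1 for `X` and `Window D W (dim X)`. -/
def OneBlowUp (D : Data S) : Prop :=
  ∀ (B X W : S.Obj) (c : ℕ), D.Blow B X W c → (Q1 D B ↔ Q1 D X ∧ Window D W X.dim)

/-- Q1 for a blow-up `B` of `ℙ^m` over `ℤ` along `W` is equivalent to `Window D W (m + 1)`. -/
def OneCentre (D : Data S) : Prop :=
  ∀ (B W : S.Obj) (m c : ℕ), D.Blow B (D.prod D.pt m) W c → (Q1 D B ↔ Window D W (m + 1))

/-- For one scheme `W` the following are equivalent: `High D W`; Q1 for all blow-ups of projective spaces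
over `ℤ` along `W`; for every `K` the finite generation of `H^p(B_et, ℤ(d))` in the degrees
`2 d - K ≤ p ≤ 2 d` for one blow-up `B` of a projective space over `ℤ` along `W`, of some dimension
`d ≥ K`. -/
def OneScheme (D : Data S) (W : S.Obj) : Prop :=
  [High D W,
    ∀ (B : S.Obj) (m c : ℕ), D.Blow B (D.prod D.pt m) W c → Q1 D B,
    ∀ K : ℕ, ∃ (B : S.Obj) (m c : ℕ), D.Blow B (D.prod D.pt m) W c ∧ K ≤ B.dim ∧
      ∀ p : ℤ, 2 * (B.dim : ℤ) - K ≤ p → p ≤ 2 * (B.dim : ℤ) → (D.H B B.dim p).FG].TFAE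

/-- Q1 for all towers of dimension `N` is equivalent to `Window D W N` for all centres `W` of blow-ups
of towers of dimension `N`. -/
def InDimension (D : Data S) (N : ℕ) : Prop :=
  (∀ B, Tower D B → B.dim = N → Q1 D B) ↔
    ∀ (B X W : S.Obj) (c : ℕ), Tower D X → X.dim = N → D.Blow B X W c → Window D W N

/-- Q1 for all towers is equivalent to `High D X` for all `X` in `S`. -/
def AllTowers (D : Data S) : Prop := (∀ B, Tower D B → Q1 D B) ↔ ∀ X, High D X

/-- `H^p(W_et, ℤ(n))` is finitely generated for all `W` in `S` of dimension `≤ 1`, `n > dim W` and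
`p ≤ 2 n`: the known case (finite fields, curves over finite fields, rings of integers). -/
def Curves (D : Data S) : Prop :=
  ∀ (W : S.Obj) (n : ℕ) (p : ℤ), W.dim ≤ 1 → W.dim < n → p ≤ 2 * (n : ℤ) → (D.H W n p).FG

/-- Q1 holds for all towers of dimension `≤ 3`. -/
def Threefolds (D : Data S) : Prop := ∀ B, Tower D B → B.dim ≤ 3 → Q1 D B

/-- Q1 for all towers of dimension `4` is equivalent to the following statement for all centres `W` of
dimension `2` of blow-ups of towers of dimension `4`: `H^p(W_et, ℤ(3))` is finitely generated for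
`-2 ≤ p ≤ 6`, and zero for `p = -2, -1`. -/
def Fourfolds (D : Data S) : Prop :=
  (∀ B, Tower D B → B.dim = 4 → Q1 D B) ↔
    ∀ (B X W : S.Obj) (c : ℕ), Tower D X → X.dim = 4 → D.Blow B X W c → W.dim = 2 →
      ∀ p : ℤ, -2 ≤ p → p ≤ 6 → (D.H W 3 p).FG ∧ (p < 0 → (D.H W 3 p).IsZero)

variable {D : Data S}

theorem oneBlowUp (h : IsData D) : OneBlowUp D := by
  intro B X W c hb
  have h1 := h.blowUp hb
  constructor
  · intro H
    refine ⟨fun p hp0 hp => ?_, fun n hn hn' p hp hp' => ?_⟩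
    · have h2 := H p hp0 (by rw [h1.dim]; exact hp)
      rw [h1.dim] at h2
      exact (h1.coh X.dim p le_rfl).fg_iff.1 h2 none
    · have h2 := H (p + 2 * ((X.dim - n : ℕ) : ℤ)) (by omega) (by rw [h1.dim]; omega)
      rw [h1.dim] at h2
      have hc := h1.codim
      have h3 := (h1.coh X.dim (p + 2 * ((X.dim - n : ℕ) : ℤ)) le_rfl).fg_iff.1 h2
        (some ⟨X.dim - n - 1, by omega⟩)
      have h4 : X.dim - (X.dim - n - 1 + 1) = n := by omega
      have h5 : p + 2 * ((X.dim - n : ℕ) : ℤ) - 2 * ((X.dim - n - 1 + 1 : ℕ) : ℤ) = p := by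
        have : X.dim - n - 1 + 1 = X.dim - n := by omega
        rw [this]
        ring
      change (D.H W (X.dim - (X.dim - n - 1 + 1))
        (p + 2 * ((X.dim - n : ℕ) : ℤ) - 2 * ((X.dim - n - 1 + 1 : ℕ) : ℤ))).FG at h3
      rw [h4, h5] at h3
      exact ⟨h3, fun hp0 => Ab.isZero_of_fg (isRational h W hn.le hp0) h3⟩
  · rintro ⟨H1, H2⟩ p hp0 hp
    rw [h1.dim] at hp ⊢
    have hc := h1.codim
    refine (h1.coh X.dim p le_rfl).fg_iff.2 ?_
    rintro (_ | a)
    · exact H1 p hp0 hp
    · have ha := a.2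
      change (D.H W (X.dim - (a + 1)) (p - 2 * ((a : ℕ) + 1 : ℕ))).FG
      exact (H2 (X.dim - (a + 1)) (by omega) (by omega) _ (by omega) (by omega)).1

theorem q1_base (h : IsData D) (N : ℕ) : Q1 D (D.prod D.pt N) := by
  intro p _ hp
  have hd : (D.prod D.pt N).dim = 1 + N := by rw [h.dim, h.pt_dim]
  rw [hd] at hp ⊢
  refine (h.coh D.pt N (1 + N) p (by rw [h.pt_dim])).fg_iff.2 fun k => ?_
  have hk := k.2
  exact h.pt_fg _ _ (by omega) (by omega)

theorem oneCentre (h : IsData D) : OneCentre D := by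
  intro B W m c hb
  have hd : (D.prod D.pt m).dim = m + 1 := by rw [h.dim, h.pt_dim]; omega
  have h1 := oneBlowUp h _ _ _ _ hb
  rw [hd] at h1
  rw [h1]
  exact and_iff_right (q1_base h m)

theorem oneScheme (h : IsData D) (W : S.Obj) : OneScheme D W := by
  unfold OneScheme
  tfae_have 1 → 2 := by
    intro H B m c hb
    exact (oneCentre h B W m c hb).2 fun n hn _ p _ hp => H n hn p hp
  tfae_have 2 → 3 := by
    intro H K
    obtain ⟨c₀, hc₀⟩ := h.embed W
    obtain ⟨B, hB⟩ := hc₀ (c₀ + K) (by omega)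
    have hd : B.dim = W.dim + (c₀ + K) + 1 := by
      rw [(h.blowUp hB).dim, h.dim, h.pt_dim]
      omega
    refine ⟨B, _, _, hB, by omega, fun p hp hp' => H B _ _ hB p (by omega) hp'⟩
  tfae_have 3 → 1 := by
    intro H n hn p hp
    obtain ⟨B, m, c, hb, hK, H1⟩ := H (n + 1 + (2 * (n : ℤ) - p).toNat)
    have h1 := h.blowUp hb
    have hN : n + 1 ≤ (D.prod D.pt m).dim := by rw [← h1.dim]; omega
    have hc := h1.codim
    set X := D.prod D.pt m with hX
    have h2 := H1 (p + 2 * ((X.dim - n : ℕ) : ℤ)) (by rw [h1.dim]; omega) (by rw [h1.dim]; omega)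
    rw [h1.dim] at h2
    have h3 := (h1.coh X.dim (p + 2 * ((X.dim - n : ℕ) : ℤ)) le_rfl).fg_iff.1 h2
      (some ⟨X.dim - n - 1, by omega⟩)
    have h4 : X.dim - (X.dim - n - 1 + 1) = n := by omega
    have h5 : p + 2 * ((X.dim - n : ℕ) : ℤ) - 2 * ((X.dim - n - 1 + 1 : ℕ) : ℤ) = p := by
      have : X.dim - n - 1 + 1 = X.dim - n := by omega
      rw [this]
      ring
    change (D.H W (X.dim - (X.dim - n - 1 + 1))
      (p + 2 * ((X.dim - n : ℕ) : ℤ) - 2 * ((X.dim - n - 1 + 1 : ℕ) : ℤ))).FG at h3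
    rw [h4, h5] at h3
    exact ⟨h3, fun hp0 => Ab.isZero_of_fg (isRational h W hn.le hp0) h3⟩
  tfae_finish

theorem inDimension (h : IsData D) (N : ℕ) : InDimension D N := by
  constructor
  · intro H B X W c hX hN hb
    have h1 := h.blowUp hb
    have h2 := H B (Tower.blowUp hX hb) (by rw [h1.dim, hN])
    have h3 := ((oneBlowUp h B X W c hb).1 h2).2
    rwa [hN] at h3
  · intro H B hB
    induction hB with
    | base m => exact fun _ => q1_base h m
    | @blowUp B X W c hX hb ih =>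
      intro hN
      have h1 := h.blowUp hb
      have hN' : X.dim = N := by rw [← h1.dim, hN]
      refine (oneBlowUp h B X W c hb).2 ⟨ih hN', ?_⟩
      rw [hN']
      exact H B X W c hX hN' hb

theorem allTowers (h : IsData D) : AllTowers D := by
  constructor
  · intro H X
    exact ((oneScheme h X).out 1 0).1 fun B m c hb => H B (Tower.blowUp (Tower.base m) hb)
  · intro H B hB
    exact (inDimension h B.dim).2
      (fun _ X W c _ _ _ n hn _ p _ hp => H W n hn p hp) B hB rfl

theorem threefolds (h : IsData D) (H : Curves D) : Threefolds D := by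
  intro B hB hN
  refine (inDimension h B.dim).2 (fun B' X W c _ hX hb n hn hn' p _ hp => ?_) B hB rfl
  have h1 := h.blowUp hb
  have hc := h1.codim
  have h2 := H W n p (by omega) hn hp
  exact ⟨h2, fun hp0 => Ab.isZero_of_fg (isRational h W hn.le hp0) h2⟩

theorem fourfolds (h : IsData D) (H : Curves D) : Fourfolds D := by
  have h0 := inDimension h 4
  unfold InDimension at h0
  unfold Fourfolds
  rw [h0]
  constructor
  · intro H1 B X W c hX hN hb hW p hp hp'
    exact H1 B X W c hX hN hb 3 (by omega) (by omega) p (by push_cast; omega) (by push_cast; omega)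
  · intro H1 B X W c hX hN hb n hn hn' p hp hp'
    have h1 := h.blowUp hb
    have hc := h1.codim
    rcases Nat.lt_or_ge W.dim 2 with hW | hW
    · have h2 := H W n p (by omega) hn hp'
      exact ⟨h2, fun hp0 => Ab.isZero_of_fg (isRational h W hn.le hp0) h2⟩
    · obtain rfl : n = 3 := by omega
      push_cast at hp hp'
      exact H1 B X W c hX hN hb (by omega) p (by omega) (by omega)

end Pool.Agent.R324.BT
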