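import Pool.Agent.R387.EM.Neg

/-!
# Étale cohomology of cycle complexes, weights `n < 0`: blow-ups, one centre and one dimension at a time
-/

set_option autoImplicit false

namespace Pool.Agent.R324.BTN

open Pool.Agent.R387.EM Pool.Agent.R387.EM.Neg

variable {S : VarClass}

/-- Let `B` be a blow-up of `X` along `W` of codimension `c + 1`. Q1 for `B` in the weight `-w < 0` is
equivalent to Q1 for `X` in the weight `-w` and Q1 for `W` in the weights `-w - a`, `0 < a ≤ c`. -/
def OneBlowUp (D : Data S) : Prop :=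
  ∀ (B X W : S.Obj) (c w : ℕ), D.Blow B X W c → 1 ≤ w →
    (Q1 D B w ↔ Q1 D X w ∧ ∀ v : ℕ, w < v → v ≤ w + c → Q1 D W v)

/-- Let `B` be a blow-up of `ℙ^m` over `ℤ` along `W` of codimension `c + 1`. Q1 for `B` in the weight
`-w < 0` is equivalent to Q1 for `W` in the weights `-w - a`, `0 < a ≤ c`. -/
def OneCentre (D : Data S) : Prop :=
  ∀ (B W : S.Obj) (m c w : ℕ), D.Blow B (D.prod D.pt m) W c → 1 ≤ w →
    (Q1 D B w ↔ ∀ v : ℕ, w < v → v ≤ w + c → Q1 D W v)

/-- For one scheme `W` the following are equivalent: Q1 for `W` in all weights `≤ -2`; Q1 in the weight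
`-1` for all blow-ups of projective spaces over `ℤ` along `W`; for every `K` there is a blow-up `B` of a
projective space over `ℤ` along `W` of dimension `≥ K` such that `H^i(B_et, ℤ^c(-1))` is finitely
generated for `3 - K ≤ i ≤ 3`. -/
def OneScheme (D : Data S) (W : S.Obj) : Prop :=
  [∀ v : ℕ, 2 ≤ v → Q1 D W v,
    ∀ (B : S.Obj) (m c : ℕ), D.Blow B (D.prod D.pt m) W c → Q1 D B 1,
    ∀ K : ℕ, ∃ (B : S.Obj) (m c : ℕ), D.Blow B (D.prod D.pt m) W c ∧ K ≤ B.dim ∧
      ∀ i : ℤ, 3 - (K : ℤ) ≤ i → i ≤ 3 → (D.H B 1 i).FG].TFAE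

/-- Q1 in the weight `-w < 0` for all towers of dimension `N` is equivalent to Q1 in the weights
`-w - a`, `0 < a ≤ c`, for all centres, of any codimension `c + 1`, of blow-ups of towers of dimension
`N`. -/
def InDimension (D : Data S) (N w : ℕ) : Prop :=
  (∀ B, Tower D B → B.dim = N → Q1 D B w) ↔
    ∀ (B X W : S.Obj) (c : ℕ), Tower D X → X.dim = N → D.Blow B X W c →
      ∀ v : ℕ, w < v → v ≤ w + c → Q1 D W v

/-- `H^i(W_et, ℤ^c(n))` is finitely generated for all `n < 0` and all `W` in `S` of dimension `≤ 1`: the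
known case (finite fields, curves over finite fields, rings of integers). -/
def Curves (D : Data S) : Prop :=
  ∀ (W : S.Obj) (w : ℕ) (i : ℤ), W.dim ≤ 1 → 1 ≤ w → (D.H W w i).FG

/-- Q1 holds in all weights `n < 0` for all towers of dimension `≤ 3`. -/
def Threefolds (D : Data S) : Prop := ∀ B, Tower D B → B.dim ≤ 3 → ∀ w : ℕ, 1 ≤ w → Q1 D B w

/-- For every weight `-w < 0`: Q1 in the weight `-w` for all towers of dimension `4` is equivalent to Q1 in
the weight `-w - 1` for all centres `W` of dimension `2` of blow-ups of these towers. -/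
def Fourfolds (D : Data S) : Prop :=
  ∀ w : ℕ, 1 ≤ w → ((∀ B, Tower D B → B.dim = 4 → Q1 D B w) ↔
    ∀ (B X W : S.Obj) (c : ℕ), Tower D X → X.dim = 4 → D.Blow B X W c → W.dim = 2 → Q1 D W (w + 1))

variable {D : Data S}

theorem oneBlowUp (h : IsData D) : OneBlowUp D := by
  intro B X W c w hb hw
  have h1 := h.blowUp hb
  constructor
  · intro H
    rw [q1_iff_G] at H
    have h2 := fun r : ℕ => (G_blow h1 w (r : ℤ) hw).1 (H r)
    refine ⟨(q1_iff_G X w).2 fun r => (h2 r).1, fun v hv hv' => (q1_iff_G W v).2 fun r => ?_⟩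
    have h3 := (h2 r).2 ⟨v - w - 1, by omega⟩
    change (G D W (w + (v - w - 1 + 1)) r).FG at h3
    rwa [show w + (v - w - 1 + 1) = v by omega] at h3
  · rintro ⟨H1, H2⟩
    rw [q1_iff_G] at H1 ⊢
    intro r
    refine (G_blow h1 w (r : ℤ) hw).2 ⟨H1 r, fun a => ?_⟩
    have ha := a.2
    exact (q1_iff_G W _).1 (H2 (w + (a + 1)) (by omega) (by omega)) r

theorem q1_base (h : IsData D) (N : ℕ) {w : ℕ} (hw : 1 ≤ w) : Q1 D (D.prod D.pt N) w := by
  rw [q1_iff_G]
  intro r
  rw [G_prod h D.pt N w r hw]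
  intro k
  exact h.pt_fg _ _ (by omega)

theorem oneCentre (h : IsData D) : OneCentre D := by
  intro B W m c w hb hw
  rw [oneBlowUp h _ _ _ _ _ hb hw]
  exact and_iff_right (q1_base h m hw)

theorem oneScheme (h : IsData D) (W : S.Obj) : OneScheme D W := by
  unfold OneScheme
  tfae_have 1 → 2 := by
    intro H B m c hb
    exact (oneCentre h B W m c 1 hb le_rfl).2 fun v hv _ => H v hv
  tfae_have 2 → 3 := by
    intro H K
    obtain ⟨c₀, hc₀⟩ := h.embed W
    obtain ⟨B, hB⟩ := hc₀ (c₀ + K) (by omega)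
    have h1 := h.blowUp hB
    have hd := h1.codim
    refine ⟨B, _, _, hB, ?_, fun i _ hi => H B _ _ hB i (by push_cast; omega)⟩
    rw [h1.dim, hd]
    omega
  tfae_have 3 → 1 := by
    intro H v hv
    rw [q1_iff_G]
    intro r
    obtain ⟨B, m, c, hb, hK, H1⟩ := H (W.dim + v + 1 + r)
    have h1 := h.blowUp hb
    have hc := h1.codim
    have hdB := h1.dim
    have h2 : (G D B 1 r).FG := by
      unfold G
      exact H1 _ (by push_cast; omega) (by push_cast; omega)
    have h3 := ((G_blow h1 1 (r : ℤ) le_rfl).1 h2).2 ⟨v - 1 - 1, by omega⟩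
    change (G D W (1 + (v - 1 - 1 + 1)) r).FG at h3
    rwa [show 1 + (v - 1 - 1 + 1) = v by omega] at h3
  tfae_finish

theorem inDimension (h : IsData D) (N : ℕ) {w : ℕ} (hw : 1 ≤ w) : InDimension D N w := by
  constructor
  · intro H B X W c hX hN hb
    have h1 := h.blowUp hb
    have h2 := H B (Tower.blowUp hX hb) (by rw [h1.dim, hN])
    exact ((oneBlowUp h B X W c w hb hw).1 h2).2
  · intro H B hB
    induction hB with
    | base m => exact fun _ => q1_base h m hw
    | @blowUp B X W c hX hb ih =>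
      intro hN
      have h1 := h.blowUp hb
      have hN' : X.dim = N := by rw [← h1.dim, hN]
      exact (oneBlowUp h B X W c w hb hw).2 ⟨ih hN', H B X W c hX hN' hb⟩

theorem threefolds (h : IsData D) (H : Curves D) : Threefolds D := by
  intro B hB hN w hw
  refine (inDimension h B.dim hw).2 (fun B' X W c _ hX hb v hv hv' => ?_) B hB rfl
  have hc := (h.blowUp hb).codim
  exact fun i _ => H W v i (by omega) (by omega)

theorem fourfolds (h : IsData D) (H : Curves D) : Fourfolds D := by
  intro w hw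
  have h0 := inDimension h 4 hw
  unfold InDimension at h0
  rw [h0]
  constructor
  · intro H1 B X W c hX hN hb hW
    have hc := (h.blowUp hb).codim
    exact H1 B X W c hX hN hb (w + 1) (by omega) (by omega)
  · intro H1 B X W c hX hN hb v hv hv'
    have hc := (h.blowUp hb).codim
    rcases Nat.lt_or_ge W.dim 2 with hW | hW
    · exact fun i _ => H W v i (by omega) (by omega)
    · obtain rfl : v = w + 1 := by omega
      exact H1 B X W c hX hN hb (by omega)

end Pool.Agent.R324.BTN
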