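import Pool.Agent.R387.BV.Main

/-!
# Beilinson's conjecture for blow-ups, one centre and one dimension at a time
-/

set_option autoImplicit false

namespace Pool.Agent.R324.BV

open Pool.Agent.R387.BV

variable {S : VarClass}

/-- The known case of dimension zero (number fields; Borel): the varieties of dimension zero are good
and satisfy the conjecture for `K_j` at all `s = -a`, `a ≥ 0`. -/
def Points (D : Data S) (j : ℕ) : Prop :=
  ∀ W : S.Obj, W.dim = 0 → Good D W ∧ ∀ a, Beilinson D W j a

/-- Let `X`, `W` be good, `B` the blow-up of `X` along `W` of codimension two, and suppose the conjecture for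
`X` at `s = -a`. The conjecture for `B` at `s = -a` is equivalent to the conjecture for `W` at `s = -a-1`. -/
def CodimensionTwo (D : Data S) (j : ℕ) : Prop :=
  ∀ (B X W : S.Obj) (a : ℕ), Good D X → Good D W → D.Blow B X W 1 → Beilinson D X j a →
    (Beilinson D B j a ↔ Beilinson D W j (a + 1))

/-- For one good variety `W`: the conjecture for `W` at all `s = -a`, `a ≥ 1`, is equivalent to Q1 for all
blow-ups of projective spaces along the varieties `ℙ^m × W`. -/
def OneVariety (D : Data S) (j : ℕ) (W : S.Obj) : Prop :=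
  (∀ a, 1 ≤ a → Beilinson D W j a) ↔
    ∀ (B : S.Obj) (m N c : ℕ), D.Blow B (D.prod D.pt N) (D.prod W m) c → Beilinson D B j 0

/-- The towers of dimension `≤ 2` are good and satisfy the conjecture at all `s = -a`, `a ≥ 0`. -/
def Surfaces (D : Data S) (j : ℕ) : Prop :=
  ∀ B, Tower D B → B.dim ≤ 2 → Good D B ∧ ∀ a, Beilinson D B j a

/-- For every `a ≥ 0`: the conjecture at `s = -a` for all towers of dimension `3` is equivalent to the
conjecture at `s = -a-1` for all good centres of dimension `1` of blow-ups of these towers. -/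
def Threefolds (D : Data S) (j : ℕ) : Prop :=
  ∀ a : ℕ, (∀ B, Tower D B → B.dim = 3 → Beilinson D B j a) ↔
    ∀ (B X W : S.Obj) (c : ℕ), Tower D X → X.dim = 3 → Good D W → D.Blow B X W c → W.dim = 1 →
      Beilinson D W j (a + 1)

variable {D : Data S} {j : ℕ}

theorem codimensionTwo (h : IsData D) : CodimensionTwo D j := by
  intro B X W a hX hW hb h0
  have h1 := blow_formula (h.blowUp hb) hX hW
  have h2 := (beilinson_iff hX j a).1 h0
  have e : ∀ p : ℕ → Prop, (∀ k : Fin 1, p (a + ((k : ℕ) + 1))) ↔ p (a + 1) := fun p =>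
    ⟨fun H => H 0, fun H k => by
      have hk : (k : ℕ) = 0 := by omega
      rw [hk]
      exact H⟩
  rw [beilinson_iff h1.1, beilinson_iff hW, (h1.2 j a).1, and_iff_right h2.1,
    e fun b => (D.reg W j b).IsIso]
  refine and_congr_right fun hw => ?_
  rw [(h1.2 j a).2 h2.1 ((e fun b => (D.reg W j b).IsIso).2 hw), h2.2, zero_add]
  simp

/-- the conjecture for a sum -/
theorem blow_of {B X W : S.Obj} {c a : ℕ} (hb : IsBlowUp D B X W c) (hX : Good D X) (hW : Good D W)
    (h0 : Beilinson D X j a) (h1 : ∀ k : Fin c, Beilinson D W j (a + (k + 1))) :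
    Beilinson D B j a := by
  have h2 := blow_formula hb hX hW
  have h3 := (beilinson_iff hX j a).1 h0
  refine (beilinson_iff h2.1 j a).2 ⟨(h2.2 j a).1.2 ⟨h3.1, fun k => (h1 k).iso⟩, ?_⟩
  rw [(h2.2 j a).2 h3.1 fun k => (h1 k).iso, h3.2, zero_add]
  exact Finset.sum_eq_zero fun k _ => ((beilinson_iff hW j _).1 (h1 k)).2

theorem prod_of {m : ℕ} {P X : S.Obj} {a : ℕ} (hp : IsProd D m P X) (hX : Good D X)
    (h0 : ∀ k : Fin (m + 1), Beilinson D X j (a + k)) : Beilinson D P j a := by
  have h2 := prod_formula hp hX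
  refine (beilinson_iff h2.1 j a).2 ⟨(h2.2 j a).1.2 fun k => (h0 k).iso, ?_⟩
  rw [(h2.2 j a).2 fun k => (h0 k).iso]
  exact Finset.sum_eq_zero fun k _ => ((beilinson_iff hX j _).1 (h0 k)).2

theorem base_of (h : IsData D) (hP : Points D j) (N a : ℕ) : Beilinson D (D.prod D.pt N) j a :=
  prod_of (h.prod D.pt N) (hP D.pt h.pt_dim).1 fun _ => (hP D.pt h.pt_dim).2 _

theorem oneVariety (h : IsData D) (hP : Points D j) {W : S.Obj} (hW : Good D W) :
    OneVariety D j W := by
  have hpt := (hP D.pt h.pt_dim).1
  constructor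
  · intro H B m N c hb
    refine blow_of (h.blowUp hb) (prod_formula (h.prod D.pt N) hpt).1
      (prod_formula (h.prod W m) hW).1 (base_of h hP N 0) fun k => ?_
    exact prod_of (h.prod W m) hW fun l => H _ (by omega)
  · intro H
    have hiso : ∀ a, 1 ≤ a → (D.reg W j a).IsIso := by
      intro a ha
      have h1 := prod_formula (h.prod W 0) hW
      obtain ⟨c₀, hc⟩ := h.embed (D.prod W 0)
      obtain ⟨B, hB⟩ := hc (c₀ + a) (by omega)
      have h2 := (((blow_formula (h.blowUp hB) (prod_formula (h.prod D.pt _) hpt).1 h1.1).2 j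
        0).1.1 (H B 0 _ _ hB).iso).2 ⟨a - 1, by omega⟩
      change (D.reg (D.prod W 0) j (0 + (a - 1 + 1))).IsIso at h2
      rw [show 0 + (a - 1 + 1) = a by omega] at h2
      have h3 := (h1.2 j a).1.1 h2 0
      simpa using h3
    intro a ha
    refine (beilinson_iff hW j a).2 ⟨hiso a ha, ?_⟩
    refine telescope (defect D W j) (fun m => ?_) a ha
    have h1 := prod_formula (h.prod W m) hW
    obtain ⟨c₀, hc⟩ := h.embed (D.prod W m)
    refine ⟨c₀, fun c hc' => ?_⟩
    obtain ⟨B, hB⟩ := hc c hc'
    have hPg := (prod_formula (h.prod D.pt ((D.prod W m).dim + c + 1)) hpt).1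
    have h2 := blow_formula (h.blowUp hB) hPg h1.1
    have h3 := (beilinson_iff h2.1 j 0).1 (H B m _ c hB)
    have h4 := (beilinson_iff hPg j 0).1 (base_of h hP _ 0)
    have h6 : ∀ k : Fin c, (D.reg (D.prod W m) j (0 + (k + 1))).IsIso := fun k =>
      (h1.2 j _).1.2 fun l => hiso _ (by omega)
    have h5 := (h2.2 j 0).2 h4.1 h6
    rw [h3.2, h4.2, zero_add] at h5
    rw [h5]
    refine Finset.sum_congr rfl fun k _ => ?_
    rw [(h1.2 j _).2 fun l => hiso _ (by omega)]
    refine Finset.sum_congr rfl fun l _ => ?_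
    rw [zero_add]

theorem surfaces (h : IsData D) (hP : Points D j) : Surfaces D j := by
  intro B hB hN
  have hpt := (hP D.pt h.pt_dim).1
  refine ⟨tower_good h hpt hB, ?_⟩
  induction hB with
  | base N => exact fun a => base_of h hP N a
  | @blowUp B X W c hX hW hb ih =>
    intro a
    have h1 := h.blowUp hb
    have hd := h1.dim
    have hc := h1.codim
    refine blow_of h1 (tower_good h hpt hX) hW (ih (by omega) a) fun k => ?_
    have hk := k.2
    exact (hP W (by omega)).2 _

theorem threefolds (h : IsData D) (hP : Points D j) : Threefolds D j := by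
  intro a
  have hpt := (hP D.pt h.pt_dim).1
  constructor
  · intro H B X W c hX hN hW hb h1
    have hc := (h.blowUp hb).codim
    obtain rfl : c = 1 := by omega
    exact (codimensionTwo h B X W a (tower_good h hpt hX) hW hb (H X hX hN)).1
      (H B (Tower.blowUp hX hW hb) (by rw [(h.blowUp hb).dim, hN]))
  · intro H B hB
    induction hB with
    | base N => exact fun _ => base_of h hP N a
    | @blowUp B X W c hX hW hb ih =>
      intro hN
      have h1 := h.blowUp hb
      have hd := h1.dim
      have hc := h1.codim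
      refine blow_of h1 (tower_good h hpt hX) hW (ih (by omega)) fun k => ?_
      have hk := k.2
      rcases Nat.eq_zero_or_pos W.dim with h2 | h2
      · exact (hP W h2).2 _
      · have h3 := H B X W c hX (by omega) hW hb (by omega)
        have h4 : (k : ℕ) = 0 := by omega
        rw [h4]
        exact h3

end Pool.Agent.R324.BV
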