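import Mathlib
import Pool.Agent.R684.GP.Stm

/-! # Project GP (helper684): piece TF (helper324) -/

set_option autoImplicit false

namespace Pool.Agent.R324.GPTF

open Pool.Agent.R684.GP

open scoped Nat

/-- A subgroup of finite index contains the core for the factorial of its index. -/
theorem core_le {G : Type} [Group G] (K : Subgroup G) (hK : K.index ≠ 0) (M : ℕ)
    (hM : (K.index)! ≤ M) : core G M ≤ K := by
  refine le_trans ?_ (Subgroup.normalCore_le K)
  haveI : K.FiniteIndex := ⟨hK⟩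
  haveI hfq : Finite (G ⧸ K) := Subgroup.finite_quotient_of_finiteIndex
  apply sInf_le
  have hidx : K.normalCore.index = Nat.card (MulAction.toPermHom G (G ⧸ K)).range := by
    rw [Subgroup.normalCore_eq_ker, Subgroup.index_ker]
  refine ⟨inferInstance, ?_, ?_⟩
  · rw [hidx]
    exact Nat.card_pos.ne'
  · rw [hidx]
    refine le_trans ?_ hM
    calc Nat.card (MulAction.toPermHom G (G ⧸ K)).range ≤ Nat.card (Equiv.Perm (G ⧸ K)) :=
          Nat.card_le_card_of_injective _ Subtype.val_injective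
      _ = (K.index)! := by rw [Nat.card_perm]; rfl

theorem core_anti {G : Type} [Group G] {i M : ℕ} (h : i ≤ M) : core G M ≤ core G i := by
  apply sInf_le_sInf
  rintro N ⟨h1, h2, h3⟩
  exact ⟨h1, h2, h3.trans h⟩

/-- Lifting a homomorphism from a free group into a cyclic group to the integers. -/
theorem lift_pow {H Q : Type} [Group H] [IsFreeGroup H] [Group Q] (π : H →* Q) (c : Q)
    (hπ : ∀ h, π h ∈ Subgroup.zpowers c) :
    ∃ fz : H →* Multiplicative ℤ, ∀ h, c ^ (Multiplicative.toAdd (fz h)) = π h := by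
  choose e he using fun h => Subgroup.mem_zpowers_iff.mp (hπ h)
  let fz : H →* Multiplicative ℤ :=
    IsFreeGroup.lift (fun a => Multiplicative.ofAdd (e (IsFreeGroup.of a)))
  refine ⟨fz, ?_⟩
  have hc : (zpowersHom Q c).comp fz = π := by
    apply IsFreeGroup.ext_hom
    intro a
    simp [fz, IsFreeGroup.lift_of, he]
  intro h
  have := DFunLike.congr_fun hc h
  simpa using this

theorem t_TF (hCO : S_CO) (hGQ : S_GQ) : S_TF := by
  intro A X _ _ _ hAF hres a ha
  by_contra ha1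
  have hn : orderOf a ≠ 1 := fun h => ha1 (orderOf_eq_one_iff.mp h)
  have hpos : 0 < orderOf a := ha.orderOf_pos
  obtain ⟨p, hp, hpd⟩ := Nat.exists_prime_and_dvd hn
  haveI : Fact p.Prime := ⟨hp⟩
  obtain ⟨k, hk⟩ := hpd
  have hk0 : 0 < k := by
    rcases Nat.eq_zero_or_pos k with h | h
    · rw [h, mul_zero] at hk; omega
    · exact h
  obtain ⟨w, hw⟩ : ∃ w, w = a ^ k := ⟨_, rfl⟩
  have hwp : w ^ p = 1 := by rw [hw, ← pow_mul, mul_comm, ← hk, pow_orderOf_eq_one]
  have hw1 : w ≠ 1 := by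
    intro h
    rw [hw] at h
    have h1 := orderOf_dvd_of_pow_eq_one h
    have h2 := Nat.le_of_dvd hk0 h1
    rw [hk] at h2
    have := hp.two_le
    nlinarith
  obtain ⟨N, hNn, hNf, hwN⟩ := hres w hw1
  obtain ⟨i, hi⟩ : ∃ i, i = N.index := ⟨_, rfl⟩
  have hle : core A i ≤ N := sInf_le ⟨hNn, hNf.index_ne_zero, hi.ge⟩
  have hwcore : w ∉ core A i := fun h => hwN (hle h)
  haveI : Group.FG (FreeGroup X) :=
    Group.fg_iff.mpr ⟨Set.range FreeGroup.of, FreeGroup.closure_range_of X, Set.finite_range _⟩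
  obtain ⟨hCn, hCi⟩ := hCO (FreeGroup X) i
  obtain ⟨M, hM⟩ : ∃ M, M = i + (p ^ 2 * (core (FreeGroup X) i).index)! := ⟨_, rfl⟩
  obtain ⟨hRn, hRi⟩ := hCO (FreeGroup X) M
  have hRC : core (FreeGroup X) M ≤ core (FreeGroup X) i := core_anti (by omega)
  obtain ⟨-, g, hg, hgC⟩ := hGQ A (FreeGroup X) hAF i (core (FreeGroup X) M) hRi hRC
  obtain ⟨x, hx⟩ := QuotientGroup.mk'_surjective (core (FreeGroup X) M) (g w)
  have hxC : x ∉ core (FreeGroup X) i := by
    intro h
    apply hwcore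
    rw [← hgC w, ← hx]
    exact Subgroup.mem_map_of_mem _ h
  have hxp : x ^ p ∈ core (FreeGroup X) M := by
    rw [← QuotientGroup.eq_one_iff]
    have : (QuotientGroup.mk' (core (FreeGroup X) M)) (x ^ p) = 1 := by
      rw [map_pow, hx, ← map_pow, hwp, map_one]
    exact this
  obtain ⟨C, hC⟩ : ∃ C, C = core (FreeGroup X) i := ⟨_, rfl⟩
  rw [← hC] at hCn hCi hM hRC hxC
  let π := QuotientGroup.mk' C
  let H := (Subgroup.zpowers (π x)).comap π
  have hxH : x ∈ H := Subgroup.mem_zpowers (π x)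
  have hCH : C ≤ H := by
    intro y hy
    have : π y = 1 := (QuotientGroup.eq_one_iff y).mpr hy
    change π y ∈ Subgroup.zpowers (π x)
    rw [this]
    exact one_mem _
  have hπ1 : π x ≠ 1 := fun h => hxC ((QuotientGroup.eq_one_iff x).mp h)
  have hπp : (π x) ^ p = 1 := by
    rw [← map_pow]
    exact (QuotientGroup.eq_one_iff _).mpr (hRC hxp)
  have ho : orderOf (π x) = p := orderOf_eq_prime hπp hπ1
  obtain ⟨fz, hfz⟩ := lift_pow (π.comp H.subtype) (π x) (fun h => h.2)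
  have h1 : (π x) ^ (Multiplicative.toAdd (fz ⟨x, hxH⟩)) = π x := hfz ⟨x, hxH⟩
  obtain ⟨z, hz⟩ : ∃ z : ℤ, z = Multiplicative.toAdd (fz ⟨x, hxH⟩) := ⟨_, rfl⟩
  rw [← hz] at h1
  have hzp : ¬ (p : ℤ) ∣ z := by
    intro hd
    have h2 : (π x) ^ z = 1 := by
      rw [← orderOf_dvd_iff_zpow_eq_one, ho]
      exact hd
    rw [h2] at h1
    exact hπ1 h1.symm
  let ρ : H →* Multiplicative (ZMod (p ^ 2)) :=
    (AddMonoidHom.toMultiplicative (Int.castAddHom (ZMod (p ^ 2)))).comp fz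
  haveI : NeZero (p ^ 2) := ⟨pow_ne_zero 2 hp.ne_zero⟩
  let K := ρ.ker.map H.subtype
  have hH0 : H.index ≠ 0 := fun h => hCi (by
    have := Subgroup.index_dvd_of_le hCH
    rw [h] at this
    exact Nat.eq_zero_of_zero_dvd this)
  have hHC : H.index ≤ C.index := Nat.le_of_dvd (Nat.pos_of_ne_zero hCi) (Subgroup.index_dvd_of_le hCH)
  have hρ : ρ.ker.index ≤ p ^ 2 ∧ ρ.ker.index ≠ 0 := by
    rw [Subgroup.index_ker]
    haveI : Finite (Multiplicative (ZMod (p ^ 2))) := inferInstanceAs (Finite (ZMod (p ^ 2)))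
    refine ⟨?_, Nat.card_pos.ne'⟩
    calc Nat.card ρ.range ≤ Nat.card (Multiplicative (ZMod (p ^ 2))) :=
          Nat.card_le_card_of_injective _ Subtype.val_injective
      _ = p ^ 2 := Nat.card_zmod (p ^ 2)
  have hKi : K.index = ρ.ker.index * H.index := Subgroup.index_map_subtype ρ.ker
  have hK0 : K.index ≠ 0 := by rw [hKi]; exact mul_ne_zero hρ.2 hH0
  have hKm : K.index ≤ p ^ 2 * C.index := by rw [hKi]; exact Nat.mul_le_mul hρ.1 hHC
  have hcl := core_le K hK0 M (by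
    have := Nat.factorial_le hKm
    omega) hxp
  obtain ⟨y, hy, hyx⟩ := hcl
  have hyX : y = (⟨x, hxH⟩ : H) ^ p := Subtype.ext hyx
  have h3 : ρ ((⟨x, hxH⟩ : H) ^ p) = 1 := by rw [← hyX]; exact hy
  have h4 : ((p * z : ℤ) : ZMod (p ^ 2)) = 0 := by
    have h5 : Multiplicative.toAdd (ρ ((⟨x, hxH⟩ : H) ^ p)) = 0 := by rw [h3]; rfl
    have h6 : Multiplicative.toAdd (ρ ((⟨x, hxH⟩ : H) ^ p)) = ((p * z : ℤ) : ZMod (p ^ 2)) := by
      rw [map_pow, toAdd_pow]
      have : Multiplicative.toAdd (ρ ⟨x, hxH⟩) = ((z : ℤ) : ZMod (p ^ 2)) := by rw [hz]; rfl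
      rw [this]
      push_cast
      simp
    rw [← h6, h5]
  rw [ZMod.intCast_zmod_eq_zero_iff_dvd] at h4
  apply hzp
  push_cast at h4
  have hp0 : (p : ℤ) ≠ 0 := by exact_mod_cast hp.ne_zero
  rw [pow_two] at h4
  exact (mul_dvd_mul_iff_left hp0).mp h4

end Pool.Agent.R324.GPTF
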