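import Pool.Agent.R895.Abs
import Pool.Agent.R895.Rel

set_option autoImplicit false

/-!
# The cone `Nef^+` for blow-ups of torus quotients
-/

namespace Pool.Agent.R324.KumPlus

open Pool.Agent.R895
open Pool.Agent.Y167 (cone AffGrp Cp cone_smul mem_cone_self)

variable {ι : Type*} [Fintype ι] {r m : ℕ} {ρ : Fin r → ι}
  {j : (Fin r → ℂ) →ₗ[ℂ] (ι → ℂ)}

/-- The rational classes: those which have a positive integral multiple. -/
def rat (m : ℕ) (j : (Fin r → ℂ) →ₗ[ℂ] (ι → ℂ)) : Set (N1 (kum ι m) j) :=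
  {x | ∃ N : ℕ, 0 < N ∧ (N : ℝ) • x ∈ integral (kum ι m) j}

theorem nef_plus [Nonempty ι] (hj : IsExt ρ j) (hρ : Function.Injective ρ) (hr0 : 2 ≤ r)
    (hr : r ≤ 4) : nefCone (kum ι m) j ∩ effCone (kum ι m) j =
      convexHull ℝ (nefCone (kum ι m) j ∩ rat m j) := by
  classical
  apply Set.Subset.antisymm
  · intro x hx
    obtain ⟨T, hT, c, hc, hxT⟩ := (mem_Cp_iff hj hρ hr0 hr x).2 hx
    obtain ⟨N, hN⟩ := exists_nat_gt (∑ a ∈ T, c a)
    have h0 : 0 ≤ ∑ a ∈ T, c a := Finset.sum_nonneg fun a _ => hc a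
    have hNr : (0 : ℝ) < N := lt_of_le_of_lt h0 hN
    have hconv := convex_convexHull ℝ (nefCone (kum ι m) j ∩ rat m j)
    have hmem0 : ∀ a : N1 (kum ι m) j, a ∈ AddSubgroup.closure (integral (kum ι m) j) →
        a ∈ Nf m j → a ∈ nefCone (kum ι m) j ∩ rat m j := by
      intro a ha haN
      refine ⟨nef_of_int hj hρ hr ha haN, 6, by norm_num, ?_⟩
      have := six_int hj hρ ha haN
      rwa [show ((6 : ℕ) : ℝ) = 6 by norm_num]
    have hzero : (0 : N1 (kum ι m) j) ∈ nefCone (kum ι m) j ∩ rat m j :=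
      hmem0 0 (AddSubgroup.zero_mem _) Nf_zero
    have hmem : ∀ a ∈ T, (N : ℝ) • a ∈ nefCone (kum ι m) j ∩ rat m j := by
      intro a ha
      refine hmem0 _ ?_ (Nf_smul hNr.le (hT a ha).2)
      have h1 := (AddSubgroup.closure (integral (kum ι m) j)).nsmul_mem (hT a ha).1 N
      rw [← Nat.cast_smul_eq_nsmul ℝ] at h1
      exact h1
    have h2 : x = (1 - (∑ a ∈ T, c a) / N) • (0 : N1 (kum ι m) j)
        + ∑ a ∈ T, (c a / N) • ((N : ℝ) • a) := by
      rw [smul_zero, zero_add, hxT]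
      refine Finset.sum_congr rfl fun a _ => ?_
      rw [smul_smul, div_mul_cancel₀ _ hNr.ne']
    have h3 : ∑ o : Option T, (Option.elim o (1 - (∑ a ∈ T, c a) / N) fun a => c a / N) •
        (Option.elim o (0 : N1 (kum ι m) j) fun a => (N : ℝ) • (a : N1 (kum ι m) j)) = x := by
      rw [Fintype.sum_option, h2]
      congr 1
      exact Finset.sum_coe_sort T (fun a => (c a / N) • ((N : ℝ) • a))
    rw [← h3]
    refine hconv.sum_mem (fun o _ => ?_) ?_ (fun o _ => ?_)
    · cases o with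
      | none =>
        change 0 ≤ 1 - (∑ a ∈ T, c a) / N
        have := (div_lt_one hNr).2 hN
        linarith
      | some a =>
        change 0 ≤ c a / N
        exact div_nonneg (hc _) hNr.le
    · rw [Fintype.sum_option]
      change 1 - (∑ a ∈ T, c a) / N + ∑ a : T, c a / N = 1
      rw [Finset.sum_coe_sort T (fun a => c a / (N : ℝ)), ← Finset.sum_div]
      ring
    · cases o with
      | none => exact subset_convexHull ℝ _ hzero
      | some a => exact subset_convexHull ℝ _ (hmem a a.2)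
  · apply convexHull_min
    · rintro x ⟨hx, N, hN, h⟩
      have hnr : (0 : ℝ) < N := by exact_mod_cast hN
      refine ⟨hx, ?_⟩
      have h0 := nefCone_le hj hρ hx
      have h1 : (N : ℝ) • x ∈ effCone (kum ι m) j :=
        eff_of_int hj hρ hr0 hr (AddSubgroup.subset_closure h) (Nf_smul hnr.le h0)
      have h2 := span_smul h1 (inv_nonneg.2 hnr.le)
      rwa [smul_smul, inv_mul_cancel₀ hnr.ne', one_smul] at h2
    · intro x hx y hy s t hs ht _
      exact ⟨nef_add (nef_smul hx.1 hs) (nef_smul hy.1 ht),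
        span_add (span_smul hx.2 hs) (span_smul hy.2 ht)⟩

end Pool.Agent.R324.KumPlus
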