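import Pool.Agent.R387.SO.Main

/-!
# Soulé's conjecture for blow-ups, one centre and one dimension at a time
-/

set_option autoImplicit false

namespace Pool.Agent.R324.ST

open Pool.Agent.R387.SO

variable {S : VarClass}

/-- The identities for `Spec ℤ` at all `s = -j`, `j ≥ 0` (Riemann, Dirichlet, Borel). -/
structure Integers (D : Data S) : Prop where
  good : Good D D.pt
  soule : ∀ j, Soule D D.pt j

/-- The identities at all `s = -j`, `j ≥ 1`, for the schemes of dimension `≤ 1`: finite fields, curves
over finite fields and rings of integers (Weil, Quillen, Harder, Borel). -/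
def Curves (D : Data S) : Prop := ∀ W : S.Obj, W.dim ≤ 1 → Good D W → ∀ j, 1 ≤ j → Soule D W j

/-- The total order of `ζ(W, s)` at `s = -j-1, …, -j-c` is the sum of the numbers
`∑ (-1)^{i+1} dim H^{2q-i}(W, ℚ(q))`, `q = dim W + j + a`, `0 < a ≤ c`. -/
def SumSoule (D : Data S) (W : S.Obj) (j c : ℕ) : Prop :=
  ∀ f, Continues W.V f → ∑ a : Fin c, meromorphicOrderAt f (-((j + (a + 1) : ℕ) : ℂ)) =
    ((∑ a : Fin c, chi D W (j + (a + 1)) : ℤ) : WithTop ℤ)

/-- Let `X`, `W` be good, `B` the blow-up of `X` along `W` of codimension `c + 1`, and suppose the identity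
for `X` at `s = -j`. The identity for `B` at `s = -j` is equivalent to `SumSoule D W j c`; for `c = 1` it is
equivalent to the identity for `W` at `s = -j-1`. -/
def OneBlowUp (D : Data S) : Prop :=
  ∀ (B X W : S.Obj) (c j : ℕ), Good D X → Good D W → D.Blow B X W c → Soule D X j →
    (Soule D B j ↔ SumSoule D W j c) ∧ (c = 1 → (Soule D B j ↔ Soule D W (j + 1)))

/-- For one good scheme `W`: the identities for `W` at all `s = -j`, `j ≥ 1`, are equivalent to the
identity at `s = 0` for all blow-ups of projective spaces over `ℤ` along the schemes `ℙ^m × W`. -/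
def OneScheme (D : Data S) (W : S.Obj) : Prop :=
  (∀ j, 1 ≤ j → Soule D W j) ↔
    ∀ (B : S.Obj) (m N c : ℕ), D.Blow B (D.prod D.pt N) (D.prod W m) c → Soule D B 0

/-- The identity at `s = -j` for all towers of dimension `N` is equivalent to `SumSoule D W j c` for all
good centres `W`, of any codimension `c + 1`, of blow-ups of towers of dimension `N`. -/
def InDimension (D : Data S) (N j : ℕ) : Prop :=
  (∀ B, Tower D B → B.dim = N → Soule D B j) ↔
    ∀ (B X W : S.Obj) (c : ℕ), Tower D X → X.dim = N → Good D W → D.Blow B X W c → SumSoule D W j c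

/-- Towers of dimension `≤ 3` are flat, satisfy the hypotheses of the problem, and the identities hold at
all `s = -j`, `j ≥ 0`. -/
def Threefolds (D : Data S) : Prop :=
  ∀ B, Tower D B → B.dim ≤ 3 → B.IsFlat ∧ Good D B ∧ ∀ j, Soule D B j

/-- For every `j ≥ 0`: the identity at `s = -j` for all towers of dimension `4` is equivalent to the
identity at `s = -j-1` for all good centres of dimension `2` of blow-ups of these towers. -/
def Fourfolds (D : Data S) : Prop :=
  ∀ j : ℕ, (∀ B, Tower D B → B.dim = 4 → Soule D B j) ↔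
    ∀ (B X W : S.Obj) (c : ℕ), Tower D X → X.dim = 4 → Good D W → D.Blow B X W c → W.dim = 2 →
      Soule D W (j + 1)

variable {D : Data S}

theorem sumSoule_iff {W : S.Obj} (hW : Good D W) (j c : ℕ) :
    SumSoule D W j c ↔ ∑ a : Fin c, defect D W (j + (a + 1)) = 0 := by
  have key : ∀ f, Continues W.V f →
      ((∑ a : Fin c, meromorphicOrderAt f (-((j + (a + 1) : ℕ) : ℂ)) =
        ((∑ a : Fin c, chi D W (j + (a + 1)) : ℤ) : WithTop ℤ)) ↔
        ∑ a : Fin c, defect D W (j + (a + 1)) = 0) := by
    intro f hf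
    have h1 : ∑ a : Fin c, meromorphicOrderAt f (-((j + (a + 1) : ℕ) : ℂ)) =
        ((∑ a : Fin c, ordv W.V (j + (a + 1)) : ℤ) : WithTop ℤ) := by
      rw [WithTop.coe_sum]
      exact Finset.sum_congr rfl fun a _ => hf.order (j + (a + 1))
    rw [h1]
    unfold defect
    rw [Finset.sum_sub_distrib, sub_eq_zero]
    exact WithTop.coe_eq_coe
  obtain ⟨f, hf⟩ := hW.cont
  exact ⟨fun H => (key f hf).1 (H f hf), fun H g hg => (key g hg).2 H⟩

theorem oneBlowUp (h : IsData D) : OneBlowUp D := by
  intro B X W c j hX hW hb h0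
  have h1 := isBlowUp_good (h.blowUp hb) hX hW
  have h2 := (soule_iff hX j).1 h0
  have h3 : Soule D B j ↔ ∑ a : Fin c, defect D W (j + (a + 1)) = 0 := by
    rw [soule_iff h1.1, h1.2, h2, zero_add]
  refine ⟨h3.trans (sumSoule_iff hW j c).symm, ?_⟩
  rintro rfl
  rw [h3, soule_iff hW]
  simp

theorem pt_defect (hZ : Integers D) (j : ℕ) : defect D D.pt j = 0 := (soule_iff hZ.good j).1 (hZ.soule j)

theorem base_defect (h : IsData D) (hZ : Integers D) (N j : ℕ) : defect D (D.prod D.pt N) j = 0 := by
  rw [(isProd_good (h.prod D.pt N) hZ.good).2]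
  exact Finset.sum_eq_zero fun k _ => pt_defect hZ _

theorem oneScheme (h : IsData D) (hZ : Integers D) {W : S.Obj} (hW : Good D W) : OneScheme D W := by
  constructor
  · intro H B m N c hb
    have h1 := isProd_good (h.prod W m) hW
    have h2 := isBlowUp_good (h.blowUp hb) (isProd_good (h.prod D.pt N) hZ.good).1 h1.1
    rw [soule_iff h2.1, h2.2, base_defect h hZ, zero_add]
    refine Finset.sum_eq_zero fun a _ => ?_
    rw [h1.2]
    exact Finset.sum_eq_zero fun k _ => (soule_iff hW _).1 (H _ (by omega))
  · intro H j hj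
    refine (soule_iff hW j).2 (telescope (defect D W) (fun m => ?_) j hj)
    have h1 := isProd_good (h.prod W m) hW
    obtain ⟨c₀, hc⟩ := h.embed (D.prod W m)
    refine ⟨c₀, fun c hc' => ?_⟩
    obtain ⟨B, hB⟩ := hc c hc'
    have h2 := isBlowUp_good (h.blowUp hB) (isProd_good (h.prod D.pt _) hZ.good).1 h1.1
    have h3 := (soule_iff h2.1 0).1 (H B m _ c hB)
    rw [h2.2 0, base_defect h hZ, zero_add] at h3
    rw [← h3]
    refine Finset.sum_congr rfl fun a _ => ?_
    rw [h1.2, zero_add]

theorem inDimension (h : IsData D) (hZ : Integers D) (N j : ℕ) : InDimension D N j := by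
  constructor
  · intro H B X W c hX hN hW hb
    have h1 := h.blowUp hb
    have h2 := isBlowUp_good h1 (tower_good h hZ.good hX).1 hW
    have h3 := (soule_iff h2.1 j).1 (H B (Tower.blowUp hX hW hb) (by rw [h1.dim, hN]))
    have h4 := (soule_iff (tower_good h hZ.good hX).1 j).1 (H X hX hN)
    rw [h2.2, h4, zero_add] at h3
    exact (sumSoule_iff hW j c).2 h3
  · intro H B hB hN
    rw [soule_iff (tower_good h hZ.good hB).1]
    induction hB with
    | base m => exact base_defect h hZ m j
    | @blowUp B X W c hX hW hb ih =>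
      have h1 := h.blowUp hb
      have hN' : X.dim = N := by rw [← h1.dim, hN]
      rw [(isBlowUp_good h1 (tower_good h hZ.good hX).1 hW).2, ih hN', zero_add]
      exact (sumSoule_iff hW j c).1 (H B X W c hX hN' hW hb)

theorem threefolds (h : IsData D) (hZ : Integers D) (hC : Curves D) : Threefolds D := by
  intro B hB hN
  have h0 := tower_good h hZ.good hB
  refine ⟨h0.2, h0.1, fun j => (inDimension h hZ B.dim j).2 (fun B' X W c _ hX hW hb => ?_) B hB rfl⟩
  have hc := (h.blowUp hb).codim
  rw [sumSoule_iff hW]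
  refine Finset.sum_eq_zero fun a _ => ?_
  have ha := a.2
  exact (soule_iff hW _).1 (hC W (by omega) hW _ (by omega))

theorem fourfolds (h : IsData D) (hZ : Integers D) (hC : Curves D) : Fourfolds D := by
  intro j
  have h0 := inDimension h hZ 4 j
  unfold InDimension at h0
  rw [h0]
  constructor
  · intro H B X W c hX hN hW hb h2
    have hc := (h.blowUp hb).codim
    obtain rfl : c = 1 := by omega
    have h3 := (sumSoule_iff hW j 1).1 (H B X W 1 hX hN hW hb)
    rw [soule_iff hW]
    simpa using h3
  · intro H B X W c hX hN hW hb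
    have hc := (h.blowUp hb).codim
    rw [sumSoule_iff hW]
    rcases Nat.lt_or_ge W.dim 2 with h2 | h2
    · refine Finset.sum_eq_zero fun a _ => ?_
      exact (soule_iff hW _).1 (hC W (by omega) hW _ (by omega))
    · rcases Nat.eq_or_lt_of_le h2 with h3 | h3
      · obtain rfl : c = 1 := by omega
        have h4 := (soule_iff hW (j + 1)).1 (H B X W 1 hX hN hW hb h3.symm)
        simpa using h4
      · obtain rfl : c = 0 := by omega
        simp

end Pool.Agent.R324.ST
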